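import Pool.Agent.Helper21.Cut.Defs2

/-!
# Packet Q3 for MP_86dbc7_gt: the swap lemma
-/

namespace Pool.Agent.Helper84.Cut

open Pool.Agent.Helper21.Cut

section sums

variable {S T R : Type*}

theorem sp_congr [AddCommMonoid R] {W : List S} {f g : List S → List S → R}
    (h : ∀ A B, A ++ B = W → f A B = g A B) : sp W f = sp W g := by
  induction W generalizing f g with
  | nil => exact h [] [] rfl
  | cons a W ih =>
    simp only [sp]
    rw [h [] (a :: W) rfl, ih]
    intro A B hAB
    exact h (a :: A) B (by simp [hAB])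

theorem spn_congr [AddCommMonoid R] {D : List S} {f g : List S → List S → R}
    (h : ∀ B C, B ≠ [] → B ++ C = D → f B C = g B C) : spn D f = spn D g := by
  cases D with
  | nil => rfl
  | cons a W => exact sp_congr fun A B hAB => h _ _ (by simp) (by simp [hAB])

theorem sp_zero [AddCommMonoid R] (W : List S) : sp W (fun _ _ => (0 : R)) = 0 := by
  induction W with
  | nil => rfl
  | cons a W ih => simp only [sp, ih, add_zero]

theorem spn_zero [AddCommMonoid R] (W : List S) : spn W (fun _ _ => (0 : R)) = 0 := by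
  cases W with
  | nil => rfl
  | cons a W => exact sp_zero W

theorem sp_sub [AddCommGroup R] (W : List S) (f g : List S → List S → R) :
    sp W (fun A B => f A B - g A B) = sp W f - sp W g := by
  induction W generalizing f g with
  | nil => rfl
  | cons a W ih => simp only [sp]; rw [ih]; abel

theorem spn_sub [AddCommGroup R] (W : List S) (f g : List S → List S → R) :
    spn W (fun A B => f A B - g A B) = spn W f - spn W g := by
  cases W with
  | nil => simp [spn]
  | cons a W => exact sp_sub W _ _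

theorem sp_map [AddCommMonoid R] (r : S → T) (W : List S) (f : List T → List T → R) :
    sp (W.map r) f = sp W fun A B => f (A.map r) (B.map r) := by
  induction W generalizing f with
  | nil => rfl
  | cons a W ih => simp only [sp, List.map_cons, List.map_nil]; rw [ih]

theorem spn_map [AddCommMonoid R] (r : S → T) (W : List S) (f : List T → List T → R) :
    spn (W.map r) f = spn W fun A B => f (A.map r) (B.map r) := by
  cases W with
  | nil => rfl
  | cons a W => exact sp_map r W _

theorem sp_single [AddCommMonoid R] (A₀ B₀ : List S) (f : List S → List S → R)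
    (h : ∀ A B, A ++ B = A₀ ++ B₀ → A ≠ A₀ → f A B = 0) : sp (A₀ ++ B₀) f = f A₀ B₀ := by
  induction A₀ generalizing f with
  | nil =>
    cases B₀ with
    | nil => rfl
    | cons b B₀ =>
      simp only [List.nil_append, sp]
      rw [sp_congr (g := fun _ _ => 0), sp_zero, add_zero]
      intro A B hAB
      exact h _ _ (by simp [hAB]) (by simp)
  | cons a A₀ ih =>
    simp only [List.cons_append, sp]
    rw [h [] (a :: (A₀ ++ B₀)) rfl (by simp), zero_add, ih]
    intro A B hAB hne
    exact h _ _ (by simp [hAB]) (by simpa using hne)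

theorem spn_single [AddCommMonoid R] (A₀ B₀ : List S) (f : List S → List S → R) (hA : A₀ ≠ [])
    (h : ∀ A B, A ≠ [] → A ++ B = A₀ ++ B₀ → A ≠ A₀ → f A B = 0) :
    spn (A₀ ++ B₀) f = f A₀ B₀ := by
  cases A₀ with
  | nil => exact absurd rfl hA
  | cons a A₀ =>
    simp only [List.cons_append, spn]
    refine sp_single A₀ B₀ (fun B C => f (a :: B) C) fun A B hAB hne => ?_
    exact h _ _ (by simp) (by simp [hAB]) (by simpa using hne)

/-- the sum over all cuts -/
def cuts [AddCommMonoid R] (W : List S) (F : List S → List S → List S → R) : R :=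
  sp W fun A D => spn D fun B C => F A B C

theorem cuts_congr [AddCommMonoid R] {W : List S} {F G : List S → List S → List S → R}
    (h : ∀ A B C, B ≠ [] → A ++ (B ++ C) = W → F A B C = G A B C) : cuts W F = cuts W G :=
  sp_congr fun A D hAD => spn_congr fun B C hB hBC => h A B C hB (by rw [hBC, hAD])

theorem cuts_zero [AddCommMonoid R] (W : List S) : cuts W (fun _ _ _ => (0 : R)) = 0 := by
  unfold cuts
  rw [sp_congr (g := fun _ _ => 0), sp_zero]
  intro A B _
  exact spn_zero B

theorem cuts_sub [AddCommGroup R] (W : List S) (F G : List S → List S → List S → R) :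
    cuts W (fun A B C => F A B C - G A B C) = cuts W F - cuts W G := by
  unfold cuts
  rw [← sp_sub]
  exact sp_congr fun A D _ => spn_sub D _ _

theorem cuts_map [AddCommMonoid R] (r : S → T) (W : List S)
    (F : List T → List T → List T → R) :
    cuts (W.map r) F = cuts W fun A B C => F (A.map r) (B.map r) (C.map r) := by
  unfold cuts
  rw [sp_map]
  exact sp_congr fun A D _ => spn_map r D _

theorem cuts_ne_zero [AddCommMonoid R] {W : List S} {F : List S → List S → List S → R}
    (h : cuts W F ≠ 0) : ∃ A B C, B ≠ [] ∧ A ++ (B ++ C) = W ∧ F A B C ≠ 0 := by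
  by_contra hcon
  push Not at hcon
  exact h ((cuts_congr fun A B C hB hW => hcon A B C hB hW).trans (cuts_zero W))

theorem cuts_single [AddCommMonoid R] (A₀ B₀ C₀ : List S) (F : List S → List S → List S → R)
    (hB : B₀ ≠ [])
    (h : ∀ A B C, B ≠ [] → A ++ (B ++ C) = A₀ ++ (B₀ ++ C₀) → ¬ (A = A₀ ∧ B = B₀) →
      F A B C = 0) : cuts (A₀ ++ (B₀ ++ C₀)) F = F A₀ B₀ C₀ := by
  unfold cuts
  rw [sp_single A₀ (B₀ ++ C₀), spn_single B₀ C₀ _ hB]
  · intro B C hB' hBC hne
    exact h A₀ B C hB' (by rw [hBC]) (fun h => hne h.2)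
  · intro A D hAD hne
    rw [spn_congr (g := fun _ _ => 0), spn_zero]
    intro B C hB' hBC
    exact h A B C hB' (by rw [hBC, hAD]) (fun h => hne h.1)

theorem nu_succ [CommRing R] (J : S → S → S → S → ℤ) (lam : List S → R) (k : ℕ) (b : S)
    (W : List S) : nu J lam (k + 1) b W = cuts W fun A B C =>
      (J (A.getLastD b) (B.headD b) (B.getLastD b) (C.headD b) : R) * lam B *
        nu J lam k b (A ++ C) := rfl

end sums

section words

variable {S : Type*} {adj : S → S → Prop}

theorem getLast?_cons_eq (b : S) (A : List S) : (b :: A).getLast? = some (A.getLastD b) := by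
  rw [List.getLast?_cons, List.getLastD_eq_getLast?]

theorem head?_append_eq (b : S) (C : List S) : (C ++ [b]).head? = some (C.headD b) := by
  cases C <;> simp

theorem getLast?_eq_of_ne (b : S) {B : List S} (hB : B ≠ []) :
    B.getLast? = some (B.getLastD b) := by
  rw [List.getLastD_eq_getLast?, List.getLast?_eq_some_getLast hB]; rfl

theorem head?_eq_of_ne (b : S) {B : List S} (hB : B ≠ []) : B.head? = some (B.headD b) := by
  cases B with
  | nil => exact absurd rfl hB
  | cons a B => rfl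

theorem validC_cut {b : S} {A B C : List S} (hB : B ≠ []) (h : ValidC adj (b :: (A ++ (B ++ C)))) :
    adj (A.getLastD b) (B.headD b) ∧ adj (B.getLastD b) (C.headD b) ∧
    (adj (A.getLastD b) (C.headD b) → ValidC adj (b :: (A ++ C))) ∧
    (adj (B.getLastD b) (B.headD b) → ValidC adj B) := by
  have h' : List.IsChain adj ((b :: A) ++ (B ++ (C ++ [b]))) := by
    have := h
    simp only [ValidC] at this
    simpa [List.append_assoc] using this
  rw [List.isChain_append, List.isChain_append] at h'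
  obtain ⟨h1, ⟨h2, h3, h4⟩, h5⟩ := h'
  rw [getLast?_cons_eq, List.head?_append_of_ne_nil _ hB, head?_eq_of_ne b hB] at h5
  rw [head?_append_eq, getLast?_eq_of_ne b hB] at h4
  refine ⟨h5 _ rfl _ rfl, h4 _ rfl _ rfl, fun hadj => ?_, fun hadj => ?_⟩
  · have : List.IsChain adj ((b :: A) ++ (C ++ [b])) := by
      rw [List.isChain_append]
      refine ⟨h1, h3, ?_⟩
      rw [getLast?_cons_eq, head?_append_eq]
      rintro x ⟨⟩ y ⟨⟩
      exact hadj
    simpa [ValidC, List.append_assoc] using this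
  · obtain ⟨y, B', rfl⟩ := List.exists_cons_of_ne_nil hB
    have : List.IsChain adj ((y :: B') ++ [y]) := by
      rw [List.isChain_append]
      refine ⟨h2, List.isChain_singleton _, ?_⟩
      rw [getLast?_eq_of_ne b hB]
      rintro x ⟨⟩ z hz
      simp at hz
      subst hz
      exact hadj
    simpa [ValidC] using this

theorem getLastD_mem_cons (b : S) (A : List S) : A.getLastD b ∈ b :: A :=
  List.mem_of_getLast? (getLast?_cons_eq b A)

theorem getLastD_mem_of_ne (b : S) {B : List S} (hB : B ≠ []) : B.getLastD b ∈ B :=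
  List.mem_of_getLast? (getLast?_eq_of_ne b hB)

theorem headD_mem_of_ne (b : S) {B : List S} (hB : B ≠ []) : B.headD b ∈ B :=
  List.mem_of_head? (head?_eq_of_ne b hB)

theorem headD_mem_append (b : S) (C : List S) : C.headD b ∈ C ++ [b] :=
  List.mem_of_head? (head?_append_eq b C)

theorem nodup_cut {b : S} {A B C : List S} (hB : B ≠ []) (h : (b :: (A ++ (B ++ C))).Nodup) :
    A.getLastD b ≠ B.getLastD b ∧ B.headD b ≠ C.headD b ∧ (b :: (A ++ C)).Nodup ∧ B.Nodup := by
  have h1 := getLastD_mem_cons b A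
  have h2 := getLastD_mem_of_ne b hB
  have h3 := headD_mem_of_ne b hB
  have h4 := headD_mem_append b C
  simp only [List.nodup_cons, List.mem_append, List.nodup_append, List.mem_cons,
    List.not_mem_nil, or_false] at *
  obtain ⟨hb, hA, ⟨hB', hC, hBC⟩, hABC⟩ := h
  push Not at hb
  refine ⟨?_, ?_, ⟨?_, hA, hC, ?_⟩, hB'⟩
  · rcases h1 with h1 | h1
    · intro h; rw [← h, h1] at h2; exact hb.2.1 h2
    · exact hABC _ h1 _ (Or.inl h2)
  · rcases h4 with h4 | h4
    · exact hBC _ h3 _ h4
    · intro h; rw [h, h4] at h3; exact hb.2.1 h3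
  · push Not; exact ⟨hb.1, hb.2.2⟩
  · intro x hx y hy; exact hABC _ hx _ (Or.inr hy)

theorem validC_rot1 (a : S) (l : List S) : ValidC adj (a :: l) ↔ ValidC adj (l ++ [a]) := by
  cases l with
  | nil => simp
  | cons b l =>
    simp only [ValidC, List.cons_append]
    have h1 : (a :: b :: (l ++ [a])) = [a] ++ (b :: (l ++ [a])) := rfl
    have h2 : (b :: (l ++ [a] ++ [b])) = (b :: (l ++ [a])) ++ [b] := rfl
    rw [h1, h2, List.isChain_append, List.isChain_append]
    simp [List.getLast?_cons, and_comm]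

theorem validC_rot (l m : List S) : ValidC adj (l ++ m) ↔ ValidC adj (m ++ l) := by
  induction l generalizing m with
  | nil => simp
  | cons a l ih =>
    rw [List.cons_append, validC_rot1, List.append_assoc, ih, List.append_assoc]
    simp

theorem validC_map {T : Type*} {adj' : T → T → Prop} (r : S → T)
    (h : ∀ x y, adj' (r x) (r y) ↔ adj x y) (l : List S) :
    ValidC adj' (l.map r) ↔ ValidC adj l := by
  cases l with
  | nil => simp [ValidC]
  | cons a l =>
    have : (a :: l).map r = r a :: l.map r := rfl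
    rw [this]
    simp only [ValidC]
    have : (r a :: (l.map r ++ [r a])) = (a :: (l ++ [a])).map r := by simp
    rw [this, List.isChain_map]
    simp only [h]

end words

section swap

variable {S R : Type*} [CommRing R] [DecidableEq S]

/-- the hypotheses of the swap lemma -/
structure SwapData (J J' : S → S → S → S → ℤ) (adj : S → S → Prop)
    (lam : List S → R) (len : List S → ℝ) (ρ κ Lt : ℝ) (u v : S) (c : ℤ) : Prop where
  hρ : 0 ≤ ρ
  hκ : 0 ≤ κ
  hJ : ∀ a b c d, J a b c d ≠ 0 → adj a b ∧ adj c d ∧ adj a d ∧ adj c b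
  hJ' : ∀ a b c d, J' a b c d ≠ 0 → adj a b ∧ adj c d ∧ adj a d ∧ adj c b
  hlow : ∀ B, lam B ≠ 0 → ρ + κ ≤ len B
  hcut : ∀ b A B C, B ≠ [] → ValidC adj (b :: (A ++ (B ++ C))) →
      (J (A.getLastD b) (B.headD b) (B.getLastD b) (C.headD b) ≠ 0 ∨
       J' (A.getLastD b) (B.headD b) (B.getLastD b) (C.headD b) ≠ 0) →
      len B + len (b :: (A ++ C)) ≤ len (b :: (A ++ (B ++ C)))
  hlamrot : ∀ A B, lam (A ++ B) = lam (B ++ A)
  hlenrot : ∀ A B, len (A ++ B) = len (B ++ A)
  huv : u ≠ v
  hpar1 : ∀ x, adj x u ↔ adj x v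
  hpar2 : ∀ x, adj u x ↔ adj v x
  hpar3 : ¬ adj u u
  hs : ∀ x₁ y₁ x₂ y₂, x₁ ≠ x₂ → y₁ ≠ y₂ → adj x₁ y₁ → adj x₂ y₂ → adj x₁ y₂ → adj x₂ y₁ →
      J' x₁ y₁ x₂ y₂ = J x₁ y₁ x₂ y₂ + c * ((if x₁ = u ∧ x₂ = v then 1 else 0)
        - (if x₁ = v ∧ x₂ = u then 1 else 0) - (if y₁ = u ∧ y₂ = v then 1 else 0)
        + (if y₁ = v ∧ y₂ = u then 1 else 0))
  hrep : ∀ x y z w, x ≠ v → y ≠ v → z ≠ v → w ≠ v →
      J (if x = u then v else x) (if y = u then v else y) (if z = u then v else z)
        (if w = u then v else w) = J x y z w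
  hlen : ∀ B, (u :: B).Nodup → v ∉ B → ValidC adj (u :: B) →
      len (v :: B) ≤ len (u :: B) + κ ∧ len (u :: B) ≤ len (v :: B) + κ
  hlam : ∀ B, (u :: B).Nodup → v ∉ B → ValidC adj (u :: B) →
      len (u :: B) ≤ Lt - ρ → len (v :: B) ≤ Lt - ρ → lam (v :: B) = lam (u :: B)

variable {J J' : S → S → S → S → ℤ} {adj : S → S → Prop}
    {lam : List S → R} {len : List S → ℝ} {ρ κ Lt : ℝ} {u v : S} {c : ℤ}

/-- replacement of `u` by `v` -/
def rp (u v x : S) : S := if x = u then v else x

theorem SwapData.adj_rp (h : SwapData J J' adj lam len ρ κ Lt u v c) (x y : S) :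
    adj (rp u v x) (rp u v y) ↔ adj x y := by
  unfold rp
  split_ifs with h1 h2 h2
  · subst h1; subst h2; rw [← h.hpar2, ← h.hpar1]
  · subst h1; rw [← h.hpar2]
  · subst h2; rw [← h.hpar1]
  · rfl

theorem map_rp_of_notMem {w : List S} (hu : u ∉ w) : w.map (rp u v) = w := by
  conv_rhs => rw [← List.map_id w]
  apply List.map_congr_left
  intro x hx
  have hxu : x ≠ u := fun h => hu (h ▸ hx)
  simp [rp, hxu]

theorem SwapData.valid_rp (h : SwapData J J' adj lam len ρ κ Lt u v c) (w : List S) :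
    ValidC adj (w.map (rp u v)) ↔ ValidC adj w :=
  validC_map (rp u v) h.adj_rp w

theorem SwapData.split (_h : SwapData J J' adj lam len ρ κ Lt u v c) {w : List S}
    (hw : w.Nodup) (hv : v ∉ w) (hval : ValidC adj w) (hu : u ∈ w) :
    ∃ X Y, w = X ++ u :: Y ∧ w.map (rp u v) = X ++ v :: Y ∧ (u :: (Y ++ X)).Nodup ∧
      v ∉ Y ++ X ∧ ValidC adj (u :: (Y ++ X)) := by
  obtain ⟨X, Y, rfl⟩ := List.append_of_mem hu
  have h1 : (u :: Y ++ X).Nodup := (List.nodup_append_comm).1 hw
  have h2 : v ∉ Y ++ X := by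
    intro h
    apply hv
    simp only [List.mem_append, List.mem_cons] at *
    tauto
  refine ⟨X, Y, rfl, ?_, h1, h2, ?_⟩
  · have h3 : u ∉ Y ++ X := (List.nodup_cons.1 h1).1
    rw [List.mem_append] at h3
    push Not at h3
    rw [List.map_append, List.map_cons, map_rp_of_notMem h3.1, map_rp_of_notMem h3.2]
    simp [rp]
  · exact (validC_rot X (u :: Y)).1 hval

theorem SwapData.len_rp (h : SwapData J J' adj lam len ρ κ Lt u v c) {w : List S}
    (hw : w.Nodup) (hv : v ∉ w) (hval : ValidC adj w) :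
    len (w.map (rp u v)) ≤ len w + κ ∧ len w ≤ len (w.map (rp u v)) + κ := by
  by_cases hu : u ∈ w
  · obtain ⟨X, Y, hXY, hXY', h1, h2, h3⟩ := h.split hw hv hval hu
    rw [hXY', hXY, h.hlenrot X (v :: Y), h.hlenrot X (u :: Y)]
    exact h.hlen _ h1 h2 h3
  · rw [map_rp_of_notMem hu]
    have := h.hκ
    constructor <;> linarith

theorem SwapData.lam_rp (h : SwapData J J' adj lam len ρ κ Lt u v c) {w : List S}
    (hw : w.Nodup) (hv : v ∉ w) (hval : ValidC adj w) (h1 : len w ≤ Lt - ρ)
    (h2 : len (w.map (rp u v)) ≤ Lt - ρ) : lam (w.map (rp u v)) = lam w := by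
  by_cases hu : u ∈ w
  · obtain ⟨X, Y, hXY, hXY', h3, h4, h5⟩ := h.split hw hv hval hu
    rw [hXY', h.hlenrot X (v :: Y)] at h2
    rw [hXY, h.hlenrot X (u :: Y)] at h1
    rw [hXY', hXY, h.hlamrot X (v :: Y), h.hlamrot X (u :: Y)]
    exact h.hlam _ h3 h4 h5 h1 h2
  · rw [map_rp_of_notMem hu]

/-- one cut with nonzero crossing number -/
theorem SwapData.cut_info (h : SwapData J J' adj lam len ρ κ Lt u v c) {b : S}
    {A B C : List S} (hB : B ≠ []) (hval : ValidC adj (b :: (A ++ (B ++ C))))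
    (hne : J (A.getLastD b) (B.headD b) (B.getLastD b) (C.headD b) ≠ 0 ∨
       J' (A.getLastD b) (B.headD b) (B.getLastD b) (C.headD b) ≠ 0) :
    ValidC adj B ∧ ValidC adj (b :: (A ++ C)) ∧
      len B + len (b :: (A ++ C)) ≤ len (b :: (A ++ (B ++ C))) := by
  obtain ⟨h1, h2, h3, h4⟩ := validC_cut hB hval
  have h5 : adj (A.getLastD b) (C.headD b) ∧ adj (B.getLastD b) (B.headD b) := by
    rcases hne with hne | hne
    · exact (h.hJ _ _ _ _ hne).2.2
    · exact (h.hJ' _ _ _ _ hne).2.2
  exact ⟨h4 h5.2, h3 h5.1, h.hcut b A B C hB hval hne⟩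

theorem SwapData.low (h : SwapData J J' adj lam len ρ κ Lt u v c) (k : ℕ) (b : S) (W : List S)
    (hval : ValidC adj (b :: W)) (hne : nu J lam k b W ≠ 0) : ρ + κ ≤ len (b :: W) := by
  induction k generalizing W with
  | zero => exact h.hlow _ hne
  | succ k ih =>
    rw [nu_succ] at hne
    obtain ⟨A, B, C, hB, rfl, hABC⟩ := cuts_ne_zero hne
    have h1 : J (A.getLastD b) (B.headD b) (B.getLastD b) (C.headD b) ≠ 0 := by
      rintro h0
      rw [h0] at hABC
      simp at hABC
    have h2 : lam B ≠ 0 := by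
      intro h0
      rw [h0] at hABC
      simp at hABC
    have h3 : nu J lam k b (A ++ C) ≠ 0 := by
      intro h0
      rw [h0] at hABC
      simp at hABC
    obtain ⟨h4, h5, h6⟩ := h.cut_info hB hval (Or.inl h1)
    have h7 := ih (A ++ C) h5 h3
    have h8 := h.hlow _ h2
    have := h.hρ
    have := h.hκ
    linarith

/-- abstract threshold argument -/
theorem prod_eq {a b a' b' : R} (h1 : a * b ≠ 0 → a' = a ∧ b' = b)
    (h2 : a' * b' ≠ 0 → a' = a ∧ b' = b) : a' * b' = a * b := by
  by_cases h3 : a * b = 0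
  · by_cases h4 : a' * b' = 0
    · rw [h3, h4]
    · obtain ⟨h5, h6⟩ := h2 h4
      rw [h5, h6]
  · obtain ⟨h5, h6⟩ := h1 h3
    rw [h5, h6]

omit [DecidableEq S] in
theorem getLastD_map {T : Type*} (r : S → T) (b : S) (A : List S) :
    (A.map r).getLastD (r b) = r (A.getLastD b) := by
  rw [List.getLastD_eq_getLast?, List.getLastD_eq_getLast?, List.getLast?_map]
  cases A.getLast? <;> rfl

omit [DecidableEq S] in
theorem headD_map {T : Type*} (r : S → T) (b : S) (A : List S) :
    (A.map r).headD (r b) = r (A.headD b) := by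
  cases A <;> rfl

theorem SwapData.rep (h : SwapData J J' adj lam len ρ κ Lt u v c) (k : ℕ) (b : S) (W : List S)
    (hnd : (b :: W).Nodup) (hv : v ∉ b :: W) (hval : ValidC adj (b :: W))
    (h1 : len (b :: W) ≤ Lt) (h2 : len ((b :: W).map (rp u v)) ≤ Lt)
    (h3 : k = 0 → len (b :: W) ≤ Lt - ρ ∧ len ((b :: W).map (rp u v)) ≤ Lt - ρ) :
    nu J lam k (rp u v b) (W.map (rp u v)) = nu J lam k b W := by
  induction k generalizing W with
  | zero => exact h.lam_rp hnd hv hval (h3 rfl).1 (h3 rfl).2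
  | succ k ih =>
    rw [nu_succ, nu_succ, cuts_map]
    apply cuts_congr
    rintro A B C hB rfl
    simp only [getLastD_map, headD_map, ← List.map_append]
    have hsub : ∀ x, x ∈ b :: (A ++ (B ++ C)) → x ≠ v := fun x hx hxv => hv (hxv ▸ hx)
    have m1 : A.getLastD b ≠ v := hsub _ (by
      have := getLastD_mem_cons b A
      simp only [List.mem_cons, List.mem_append] at this ⊢; tauto)
    have m2 : B.headD b ≠ v := hsub _ (by
      have := headD_mem_of_ne b hB
      simp only [List.mem_cons, List.mem_append] at this ⊢; tauto)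
    have m3 : B.getLastD b ≠ v := hsub _ (by
      have := getLastD_mem_of_ne b hB
      simp only [List.mem_cons, List.mem_append] at this ⊢; tauto)
    have m4 : C.headD b ≠ v := hsub _ (by
      have := headD_mem_append b C
      simp only [List.mem_cons, List.mem_append, List.not_mem_nil, or_false] at this ⊢; tauto)
    have hJJ : J (rp u v (A.getLastD b)) (rp u v (B.headD b)) (rp u v (B.getLastD b))
        (rp u v (C.headD b)) = J (A.getLastD b) (B.headD b) (B.getLastD b) (C.headD b) :=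
      h.hrep _ _ _ _ m1 m2 m3 m4
    rw [hJJ]
    by_cases hJ0 : J (A.getLastD b) (B.headD b) (B.getLastD b) (C.headD b) = 0
    · rw [hJ0]; simp
    obtain ⟨c1, c2, c3⟩ := h.cut_info hB hval (Or.inl hJ0)
    obtain ⟨n1, n2, n3, n4⟩ := nodup_cut hB hnd
    have v1 : v ∉ B := fun hx => hv (by simp [hx])
    have v2 : v ∉ b :: (A ++ C) := fun hx => hv (by
      simp only [List.mem_cons, List.mem_append] at hx ⊢; tauto)
    have hval' : ValidC adj (rp u v b :: (A.map (rp u v) ++ (B.map (rp u v) ++ C.map (rp u v)))) := by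
      have := (h.valid_rp (b :: (A ++ (B ++ C)))).2 hval
      simpa using this
    obtain ⟨d1, d2, d3⟩ := h.cut_info (b := rp u v b) (A := A.map (rp u v))
      (B := B.map (rp u v)) (C := C.map (rp u v)) (by simpa using hB) hval' (Or.inl (by
        simp only [getLastD_map, headD_map]; rw [hJJ]; exact hJ0))
    have l1 := h.len_rp n4 v1 c1
    have l2 := h.len_rp n3 v2 c2
    have q1 : (b :: (A ++ C)).map (rp u v) = rp u v b :: (A.map (rp u v) ++ C.map (rp u v)) := by
      simp
    have q2 : (b :: (A ++ (B ++ C))).map (rp u v) =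
      rp u v b :: (A.map (rp u v) ++ (B.map (rp u v) ++ C.map (rp u v))) := by simp
    rw [q1] at l2
    rw [q2] at h2
    have hρ := h.hρ
    have hκ := h.hκ
    have key : ∀ (z1 : len B ≤ Lt - ρ) (z2 : len (B.map (rp u v)) ≤ Lt - ρ)
        (z3 : len (b :: (A ++ C)) ≤ Lt - ρ)
        (z4 : len (rp u v b :: (A.map (rp u v) ++ C.map (rp u v))) ≤ Lt - ρ),
        lam (B.map (rp u v)) = lam B ∧
          nu J lam k (rp u v b) ((A ++ C).map (rp u v)) = nu J lam k b (A ++ C) := by
      intro z1 z2 z3 z4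
      refine ⟨h.lam_rp n4 v1 c1 z1 z2, ih (A ++ C) n3 v2 c2 (by linarith) ?_ ?_⟩
      · rw [q1]; linarith
      · intro _; rw [q1]; exact ⟨z3, z4⟩
    rw [mul_assoc, mul_assoc]
    congr 1
    apply prod_eq
    · intro hne
      have g1 := h.hlow B (left_ne_zero_of_mul hne)
      have g2 := h.low k b (A ++ C) c2 (right_ne_zero_of_mul hne)
      apply key <;> linarith [l1.1, l1.2, l2.1, l2.2]
    · intro hne
      have g1 := h.hlow _ (left_ne_zero_of_mul hne)
      have g2 := h.low k (rp u v b) ((A ++ C).map (rp u v)) (by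
        rw [List.map_append]; exact d2) (right_ne_zero_of_mul hne)
      rw [List.map_append] at g2
      apply key <;> linarith [l1.1, l1.2, l2.1, l2.2]

theorem SwapData.symm (h : SwapData J J' adj lam len ρ κ Lt u v c) :
    SwapData J J' adj lam len ρ κ Lt v u (-c) := by
  have hvv : ¬ adj v v := by rw [← h.hpar1, ← h.hpar2]; exact h.hpar3
  refine { hρ := h.hρ, hκ := h.hκ, hJ := h.hJ, hJ' := h.hJ', hlow := h.hlow, hcut := h.hcut,
           hlamrot := h.hlamrot, hlenrot := h.hlenrot, huv := h.huv.symm,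
           hpar1 := fun x => (h.hpar1 x).symm, hpar2 := fun x => (h.hpar2 x).symm,
           hpar3 := hvv, hs := ?_, hrep := ?_, hlen := ?_, hlam := ?_ }
  · intro x₁ y₁ x₂ y₂ a1 a2 a3 a4 a5 a6
    rw [h.hs x₁ y₁ x₂ y₂ a1 a2 a3 a4 a5 a6]
    ring
  · intro x y z w hx hy hz hw
    have key : ∀ x, x ≠ u → (if (if x = v then u else x) = u then v else (if x = v then u else x)) = x := by
      intro x hx
      by_cases hxv : x = v
      · simp [hxv]
      · simp [hxv, hx]
    have key2 : ∀ x, x ≠ u → (if x = v then u else x) ≠ v := by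
      intro x hx
      by_cases hxv : x = v
      · rw [if_pos hxv]; exact h.huv
      · rw [if_neg hxv]; exact hxv
    have := h.hrep (if x = v then u else x) (if y = v then u else y) (if z = v then u else z)
      (if w = v then u else w) (key2 x hx) (key2 y hy) (key2 z hz) (key2 w hw)
    rw [key x hx, key y hy, key z hz, key w hw] at this
    exact this.symm
  · intro B hnd huB hval
    have hne : u ≠ v := h.huv
    have hndB := List.nodup_cons.1 hnd
    have hval' : ValidC adj (u :: B) := by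
      rw [← h.valid_rp]
      rw [List.map_cons, map_rp_of_notMem huB]
      simpa [rp] using hval
    have := h.hlen B (List.nodup_cons.2 ⟨huB, hndB.2⟩) hndB.1 hval'
    exact ⟨this.2, this.1⟩
  · intro B hnd huB hval h1 h2
    have hndB := List.nodup_cons.1 hnd
    have hval' : ValidC adj (u :: B) := by
      rw [← h.valid_rp]
      rw [List.map_cons, map_rp_of_notMem huB]
      simpa [rp] using hval
    exact (h.hlam B (List.nodup_cons.2 ⟨huB, hndB.2⟩) hndB.1 hval' h2 h1).symm

theorem uniq_split {T : Type*} {X Y X' Y' : List T} {a : T} (hnd : (X ++ a :: Y).Nodup)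
    (h : X ++ a :: Y = X' ++ a :: Y') : X = X' ∧ Y = Y' := by
  have h1 : a ∉ X := by
    intro ha
    have := (List.nodup_append.1 hnd).2.2 a ha a (by simp)
    exact this rfl
  have h2 : a ∉ Y := (List.nodup_cons.1 (List.nodup_append.1 hnd).2.1).1
  have := (List.append_cons_inj_of_notMem h1 h2).1 h
  exact ⟨this.1, this.2.2⟩

theorem order_contra {T : Type*} {X Y X' Y' : List T} {a d : T} (hnd : (X ++ Y).Nodup)
    (h : X ++ Y = X' ++ Y') (ha : a ∈ X) (hd : d ∈ Y) (hd' : d ∈ X') (ha' : a ∈ Y') : False := by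
  have hnd' : (X' ++ Y').Nodup := h ▸ hnd
  rcases List.append_eq_append_iff.1 h with ⟨Z, hZ, hZ'⟩ | ⟨Z, hZ, hZ'⟩
  · exact (List.nodup_append.1 hnd').2.2 a (by rw [hZ]; simp [ha]) a ha' rfl
  · exact (List.nodup_append.1 hnd).2.2 d (by rw [hZ]; simp [hd']) d hd rfl

theorem exists_of_getLastD {T : Type*} {A : List T} {b x : T} (h : A.getLastD b = x) (hbx : b ≠ x) :
    ∃ A', A = A' ++ [x] := by
  rcases List.eq_nil_or_concat A with rfl | ⟨A', y, rfl⟩
  · exact absurd h hbx
  · refine ⟨A', ?_⟩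
    rw [List.concat_eq_append, List.getLastD_eq_getLast?, List.getLast?_append] at h
    simp at h
    rw [List.concat_eq_append, h]

theorem exists_of_headD {T : Type*} {A : List T} {b x : T} (h : A.headD b = x) (hbx : b ≠ x) :
    ∃ A', A = x :: A' := by
  cases A with
  | nil => exact absurd h hbx
  | cons a A => exact ⟨A, by rw [show a = x from h]⟩

/-- the difference of the crossing numbers -/
theorem SwapData.diff (h : SwapData J J' adj lam len ρ κ Lt u v c) {b : S}
    {A B C : List S} (hB : B ≠ []) (hnd : (b :: (A ++ (B ++ C))).Nodup)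
    (hval : ValidC adj (b :: (A ++ (B ++ C)))) :
    J' (A.getLastD b) (B.headD b) (B.getLastD b) (C.headD b) -
      J (A.getLastD b) (B.headD b) (B.getLastD b) (C.headD b) =
    c * ((if A.getLastD b = u ∧ B.getLastD b = v then 1 else 0)
        - (if A.getLastD b = v ∧ B.getLastD b = u then 1 else 0)
        - (if B.headD b = u ∧ C.headD b = v then 1 else 0)
        + (if B.headD b = v ∧ C.headD b = u then 1 else 0)) := by
  obtain ⟨n1, n2, -, -⟩ := nodup_cut hB hnd
  obtain ⟨a1, a2, -, -⟩ := validC_cut hB hval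
  generalize A.getLastD b = x₁ at *
  generalize B.getLastD b = x₂ at *
  generalize B.headD b = y₁ at *
  generalize C.headD b = y₂ at *
  by_cases hadj : adj x₁ y₂ ∧ adj x₂ y₁
  · rw [h.hs x₁ y₁ x₂ y₂ n1 n2 a1 a2 hadj.1 hadj.2]
    ring
  · have z1 : J x₁ y₁ x₂ y₂ = 0 := by
      by_contra h0
      exact hadj (h.hJ _ _ _ _ h0).2.2
    have z2 : J' x₁ y₁ x₂ y₂ = 0 := by
      by_contra h0
      exact hadj (h.hJ' _ _ _ _ h0).2.2
    have i1 : ¬ (x₁ = u ∧ x₂ = v) := by
      rintro ⟨rfl, rfl⟩
      exact hadj ⟨(h.hpar2 _).2 a2, (h.hpar2 _).1 a1⟩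
    have i2 : ¬ (x₁ = v ∧ x₂ = u) := by
      rintro ⟨rfl, rfl⟩
      exact hadj ⟨(h.hpar2 _).1 a2, (h.hpar2 _).2 a1⟩
    have i3 : ¬ (y₁ = u ∧ y₂ = v) := by
      rintro ⟨rfl, rfl⟩
      exact hadj ⟨(h.hpar1 _).1 a1, (h.hpar1 _).2 a2⟩
    have i4 : ¬ (y₁ = v ∧ y₂ = u) := by
      rintro ⟨rfl, rfl⟩
      exact hadj ⟨(h.hpar1 _).2 a1, (h.hpar1 _).1 a2⟩
    rw [z1, z2, if_neg i1, if_neg i2, if_neg i3, if_neg i4]
    ring

/-- the sum of the differences over all cuts -/
def dsum (lam : List S → R) (J : S → S → S → S → ℤ) (u v : S) (c : ℤ) (k : ℕ) (b : S)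
    (W : List S) : R :=
  cuts W fun A B C => ((c * ((if A.getLastD b = u ∧ B.getLastD b = v then 1 else 0)
        - (if A.getLastD b = v ∧ B.getLastD b = u then 1 else 0)
        - (if B.headD b = u ∧ C.headD b = v then 1 else 0)
        + (if B.headD b = v ∧ C.headD b = u then 1 else 0)) : ℤ) : R) *
        (lam B * nu J lam k b (A ++ C))

theorem dsum_symm (lam : List S → R) (J : S → S → S → S → ℤ) (u v : S) (c : ℤ) (k : ℕ) (b : S)
    (W : List S) : dsum lam J u v c k b W = dsum lam J v u (-c) k b W := by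
  unfold dsum
  apply cuts_congr
  intro A B C _ _
  congr 2
  ring

theorem dsum_of_notMem (lam : List S → R) (J : S → S → S → S → ℤ) (u v : S) (c : ℤ) (k : ℕ) (b : S)
    (W : List S) (hbu : b ≠ u) (hu : u ∉ W) : dsum lam J u v c k b W = 0 := by
  unfold dsum
  refine (cuts_congr (G := fun _ _ _ => 0) ?_).trans (cuts_zero W)
  rintro A B C hB rfl
  have m1 : A.getLastD b ≠ u := by
    have h0 := getLastD_mem_cons b A
    intro h1; rw [h1] at h0
    simp only [List.mem_cons, List.mem_append] at *; rcases h0 with h0 | h0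
    · exact hbu h0.symm
    · tauto
  have m2 : B.headD b ≠ u := by
    have h0 := headD_mem_of_ne b hB
    intro h1; rw [h1] at h0
    simp only [List.mem_append] at *; tauto
  have m3 : B.getLastD b ≠ u := by
    have h0 := getLastD_mem_of_ne b hB
    intro h1; rw [h1] at h0
    simp only [List.mem_append] at *; tauto
  have m4 : C.headD b ≠ u := by
    have h0 := headD_mem_append b C
    intro h1; rw [h1] at h0
    simp only [List.mem_append, List.mem_cons, List.not_mem_nil, or_false] at *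
    rcases h0 with h0 | h0
    · tauto
    · exact hbu h0.symm
  rw [if_neg (fun h => m1 h.1), if_neg (fun h => m3 h.2), if_neg (fun h => m2 h.1),
    if_neg (fun h => m4 h.2)]
  simp

theorem SwapData.core (h : SwapData J J' adj lam len ρ κ Lt u v c) (k : ℕ) (b : S)
    (A₀ B₀ C₀ : List S) (hnd : (b :: (A₀ ++ u :: (B₀ ++ v :: C₀))).Nodup)
    (hval : ValidC adj (b :: (A₀ ++ u :: (B₀ ++ v :: C₀))))
    (hlen : len (b :: (A₀ ++ u :: (B₀ ++ v :: C₀))) ≤ Lt) :
    dsum lam J u v c k b (A₀ ++ u :: (B₀ ++ v :: C₀)) = 0 := by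
  have hbu : b ≠ u := by
    rintro rfl
    simp at hnd
  have hbv : b ≠ v := by
    rintro rfl
    simp at hnd
  have huv := h.huv
  have hndW : (A₀ ++ u :: (B₀ ++ v :: C₀)).Nodup := (List.nodup_cons.1 hnd).2
  have hndW1 : ((A₀ ++ [u]) ++ (B₀ ++ v :: C₀)).Nodup := by simpa using hndW
  -- the two special cuts
  have e1 : dsum lam J u v c k b (A₀ ++ u :: (B₀ ++ v :: C₀)) =
      cuts (A₀ ++ u :: (B₀ ++ v :: C₀)) (fun A B C =>
        (if A.getLastD b = u ∧ B.getLastD b = v then (c : R) * (lam B * nu J lam k b (A ++ C))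
          else 0)) -
      cuts (A₀ ++ u :: (B₀ ++ v :: C₀)) (fun A B C =>
        (if B.headD b = u ∧ C.headD b = v then (c : R) * (lam B * nu J lam k b (A ++ C))
          else 0)) := by
    rw [← cuts_sub]
    unfold dsum
    apply cuts_congr
    intro A B C hB hABC
    have i2 : ¬ (A.getLastD b = v ∧ B.getLastD b = u) := by
      rintro ⟨g1, g2⟩
      have m1 := getLastD_mem_cons b A
      rw [g1, List.mem_cons] at m1
      have m2 := getLastD_mem_of_ne b hB
      rw [g2] at m2
      refine order_contra (X := A₀ ++ [u]) (Y := B₀ ++ v :: C₀) (X' := A) (Y' := B ++ C)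
        (a := u) (d := v) hndW1 (by rw [hABC]; simp) (by simp) (by simp) ?_ (by simp [m2])
      exact m1.resolve_left hbv.symm
    have i4 : ¬ (B.headD b = v ∧ C.headD b = u) := by
      rintro ⟨g1, g2⟩
      have m1 := headD_mem_of_ne b hB
      rw [g1] at m1
      have m2 := headD_mem_append b C
      rw [g2, List.mem_append, List.mem_singleton] at m2
      refine order_contra (X := A₀ ++ [u]) (Y := B₀ ++ v :: C₀) (X' := A ++ B) (Y' := C)
        (a := u) (d := v) hndW1 (by rw [List.append_assoc A, hABC]; simp) (by simp) (by simp)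
        (by simp [m1]) ?_
      exact m2.resolve_right (Ne.symm hbu)
    rw [if_neg i2, if_neg i4]
    by_cases i1 : A.getLastD b = u ∧ B.getLastD b = v
    · by_cases i3 : B.headD b = u ∧ C.headD b = v
      · rw [if_pos i1, if_pos i3, if_pos i1, if_pos i3]; push_cast; ring
      · rw [if_pos i1, if_neg i3, if_pos i1, if_neg i3]; push_cast; ring
    · by_cases i3 : B.headD b = u ∧ C.headD b = v
      · rw [if_neg i1, if_pos i3, if_neg i1, if_pos i3]; push_cast; ring
      · rw [if_neg i1, if_neg i3, if_neg i1, if_neg i3]; push_cast; ring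
  have hW1 : A₀ ++ u :: (B₀ ++ v :: C₀) = (A₀ ++ [u]) ++ ((B₀ ++ [v]) ++ C₀) := by simp
  have hW2 : A₀ ++ u :: (B₀ ++ v :: C₀) = A₀ ++ ((u :: B₀) ++ (v :: C₀)) := by simp
  have s1 : cuts (A₀ ++ u :: (B₀ ++ v :: C₀)) (fun A B C =>
        (if A.getLastD b = u ∧ B.getLastD b = v then (c : R) * (lam B * nu J lam k b (A ++ C))
          else 0)) = (c : R) * (lam (B₀ ++ [v]) * nu J lam k b (A₀ ++ u :: C₀)) := by
    rw [hW1, cuts_single (A₀ ++ [u]) (B₀ ++ [v]) C₀ _ (by simp)]
    · rw [if_pos]
      · simp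
      · constructor
        · rw [List.getLastD_eq_getLast?]; simp
        · rw [List.getLastD_eq_getLast?]; simp
    · intro A B C hB hABC hne
      rw [if_neg]
      rintro ⟨g1, g2⟩
      apply hne
      obtain ⟨A', rfl⟩ := exists_of_getLastD g1 hbu
      obtain ⟨B', rfl⟩ := exists_of_getLastD g2 hbv
      have q1 : A₀ ++ u :: (B₀ ++ v :: C₀) = A' ++ u :: (B' ++ v :: C) := by
        rw [hW1, ← hABC]; simp
      obtain ⟨q2, q3⟩ := uniq_split hndW q1
      have q4 : (B₀ ++ v :: C₀).Nodup := by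
        have := (List.nodup_append.1 hndW).2.1
        exact (List.nodup_cons.1 this).2
      obtain ⟨q5, q6⟩ := uniq_split q4 q3
      rw [q2, q5]
      exact ⟨rfl, rfl⟩
  have s2 : cuts (A₀ ++ u :: (B₀ ++ v :: C₀)) (fun A B C =>
        (if B.headD b = u ∧ C.headD b = v then (c : R) * (lam B * nu J lam k b (A ++ C))
          else 0)) = (c : R) * (lam (u :: B₀) * nu J lam k b (A₀ ++ v :: C₀)) := by
    rw [hW2, cuts_single A₀ (u :: B₀) (v :: C₀) _ (by simp)]
    · rw [if_pos]
      exact ⟨rfl, rfl⟩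
    · intro A B C hB hABC hne
      rw [if_neg]
      rintro ⟨g1, g2⟩
      apply hne
      obtain ⟨C', rfl⟩ := exists_of_headD g2 hbv
      obtain ⟨B', rfl⟩ := exists_of_headD g1 hbu
      have q1 : A₀ ++ u :: (B₀ ++ v :: C₀) = A ++ u :: (B' ++ v :: C') := by
        rw [hW2, ← hABC]; simp
      obtain ⟨q2, q3⟩ := uniq_split hndW q1
      have q4 : (B₀ ++ v :: C₀).Nodup := by
        have := (List.nodup_append.1 hndW).2.1
        exact (List.nodup_cons.1 this).2
      obtain ⟨q5, q6⟩ := uniq_split q4 q3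
      rw [q2, q5]
      exact ⟨rfl, rfl⟩
  rw [e1, s1, s2, ← mul_sub]
  by_cases hc : c = 0
  · rw [hc]; simp
  -- first cut
  have hnd1 : (b :: ((A₀ ++ [u]) ++ ((B₀ ++ [v]) ++ C₀))).Nodup := by rw [← hW1]; exact hnd
  have hval1 : ValidC adj (b :: ((A₀ ++ [u]) ++ ((B₀ ++ [v]) ++ C₀))) := by
    rw [← hW1]; exact hval
  have hnd2 : (b :: (A₀ ++ ((u :: B₀) ++ (v :: C₀)))).Nodup := by rw [← hW2]; exact hnd
  have hval2 : ValidC adj (b :: (A₀ ++ ((u :: B₀) ++ (v :: C₀)))) := by
    rw [← hW2]; exact hval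
  have hne1 : B₀ ++ [v] ≠ [] := by simp
  have hne2 : u :: B₀ ≠ [] := by simp
  have d1 := h.diff hne1 hnd1 hval1
  have d2 := h.diff hne2 hnd2 hval2
  have f1 : (A₀ ++ [u]).getLastD b = u := by rw [List.getLastD_eq_getLast?]; simp
  have f2 : (B₀ ++ [v]).getLastD b = v := by rw [List.getLastD_eq_getLast?]; simp
  have f3 : (B₀ ++ [v]).headD b ≠ u := by
    intro h0
    have := headD_mem_of_ne b hne1
    rw [h0] at this
    have h1 := (List.nodup_append.1 hndW).2.1
    have h2 := (List.nodup_cons.1 h1).1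
    apply h2
    simp only [List.mem_append, List.mem_cons, List.not_mem_nil, or_false] at *
    tauto
  have f4 : C₀.headD b ≠ u := by
    intro h0
    have := headD_mem_append b C₀
    rw [h0, List.mem_append, List.mem_singleton] at this
    have h1 := (List.nodup_append.1 hndW).2.1
    have h2 := (List.nodup_cons.1 h1).1
    rcases this with this | this
    · apply h2
      simp [this]
    · exact hbu this.symm
  have f5 : (u :: B₀).headD b = u := rfl
  have f6 : (v :: C₀).headD b = v := rfl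
  have f7 : A₀.getLastD b ≠ u := by
    intro h0
    have := getLastD_mem_cons b A₀
    rw [h0, List.mem_cons] at this
    rcases this with this | this
    · exact hbu this.symm
    · exact (List.nodup_append.1 hndW).2.2 u this u (by simp) rfl
  have f8 : A₀.getLastD b ≠ v := by
    intro h0
    have := getLastD_mem_cons b A₀
    rw [h0, List.mem_cons] at this
    rcases this with this | this
    · exact hbv this.symm
    · exact (List.nodup_append.1 hndW).2.2 v this v (by simp) rfl
  rw [f1, f2] at d1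
  rw [f5, f6] at d2
  simp only [huv, huv.symm, f3, f4, false_and, and_false, if_false, and_self,
    if_true] at d1
  simp only [huv, huv.symm, f7, f8, false_and, if_false, and_self, if_true] at d2
  have g1 : J ((A₀ ++ [u]).getLastD b) ((B₀ ++ [v]).headD b) ((B₀ ++ [v]).getLastD b)
      (C₀.headD b) ≠ 0 ∨ J' ((A₀ ++ [u]).getLastD b) ((B₀ ++ [v]).headD b)
      ((B₀ ++ [v]).getLastD b) (C₀.headD b) ≠ 0 := by
    rw [f1, f2]
    by_contra hcon
    push Not at hcon
    rw [hcon.1, hcon.2] at d1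
    apply hc
    linarith
  have g2 : J (A₀.getLastD b) ((u :: B₀).headD b) ((u :: B₀).getLastD b)
      ((v :: C₀).headD b) ≠ 0 ∨ J' (A₀.getLastD b) ((u :: B₀).headD b) ((u :: B₀).getLastD b)
      ((v :: C₀).headD b) ≠ 0 := by
    rw [f5, f6]
    by_contra hcon
    push Not at hcon
    rw [hcon.1, hcon.2] at d2
    apply hc
    linarith
  obtain ⟨v1, v2, l1⟩ := h.cut_info hne1 hval1 g1
  obtain ⟨v3, v4, l2⟩ := h.cut_info hne2 hval2 g2
  rw [← hW1] at l1
  rw [← hW2] at l2
  have hAu : (A₀ ++ [u]) ++ C₀ = A₀ ++ u :: C₀ := by simp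
  rw [hAu] at v2 l1
  -- the words with `u` and the words with `v`
  have k1 : (u :: B₀).map (rp u v) = v :: B₀ := by
    have : u ∉ B₀ := by
      intro h0
      have h1 := (List.nodup_append.1 hndW).2.1
      exact (List.nodup_cons.1 h1).1 (by simp [h0])
    rw [List.map_cons, map_rp_of_notMem this]
    simp [rp]
  have k2 : (A₀ ++ u :: C₀).map (rp u v) = A₀ ++ v :: C₀ := by
    have t1 : u ∉ A₀ := by
      intro h0
      exact (List.nodup_append.1 hndW).2.2 u h0 u (by simp) rfl
    have t2 : u ∉ C₀ := by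
      intro h0
      have h1 := (List.nodup_append.1 hndW).2.1
      exact (List.nodup_cons.1 h1).1 (by simp [h0])
    rw [List.map_append, List.map_cons, map_rp_of_notMem t1, map_rp_of_notMem t2]
    simp [rp]
  have k3 : rp u v b = b := by simp [rp, hbu]
  have k4 : (b :: (A₀ ++ u :: C₀)).map (rp u v) = b :: (A₀ ++ v :: C₀) := by
    rw [List.map_cons, k2, k3]
  have nB : (u :: B₀).Nodup := (nodup_cut hne2 hnd2).2.2.2
  have nR : (b :: (A₀ ++ u :: C₀)).Nodup := by
    have := (nodup_cut hne1 hnd1).2.2.1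
    rwa [hAu] at this
  have vB : v ∉ u :: B₀ := by
    intro h0
    rw [List.mem_cons] at h0
    rcases h0 with h0 | h0
    · exact huv h0.symm
    · have h1 := (List.nodup_cons.1 (List.nodup_append.1 hndW).2.1).2
      exact (List.nodup_append.1 h1).2.2 v h0 v (by simp) rfl
  have vR : v ∉ b :: (A₀ ++ u :: C₀) := by
    intro h0
    rw [List.mem_cons, List.mem_append, List.mem_cons] at h0
    rcases h0 with h0 | h0 | h0 | h0
    · exact hbv h0.symm
    · exact (List.nodup_append.1 hndW).2.2 v h0 v (by simp) rfl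
    · exact huv h0.symm
    · have h1 := (List.nodup_cons.1 (List.nodup_append.1 hndW).2.1).2
      have h2 := (List.nodup_append.1 h1).2.1
      exact (List.nodup_cons.1 h2).1 h0
  have lB := h.len_rp nB vB v3
  have lR := h.len_rp nR vR v2
  rw [k1] at lB
  rw [k4] at lR
  have rl1 : lam (B₀ ++ [v]) = lam (v :: B₀) := h.hlamrot B₀ [v]
  have rl2 : len (B₀ ++ [v]) = len (v :: B₀) := h.hlenrot B₀ [v]
  rw [rl2] at l1
  rw [rl1]
  have hρ := h.hρ
  have hκ := h.hκ
  have key : ∀ (z1 : len (u :: B₀) ≤ Lt - ρ) (z2 : len (v :: B₀) ≤ Lt - ρ)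
      (z3 : len (b :: (A₀ ++ u :: C₀)) ≤ Lt - ρ) (z4 : len (b :: (A₀ ++ v :: C₀)) ≤ Lt - ρ),
      lam (v :: B₀) = lam (u :: B₀) ∧
        nu J lam k b (A₀ ++ v :: C₀) = nu J lam k b (A₀ ++ u :: C₀) := by
    intro z1 z2 z3 z4
    constructor
    · have := h.lam_rp nB vB v3 z1 (by rw [k1]; exact z2)
      rwa [k1] at this
    · have := h.rep k b (A₀ ++ u :: C₀) nR vR v2 (by linarith) (by rw [k4]; linarith)
        (fun _ => by rw [k4]; exact ⟨z3, z4⟩)
      rwa [k2, k3] at this
  have fin : lam (v :: B₀) * nu J lam k b (A₀ ++ u :: C₀) =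
      lam (u :: B₀) * nu J lam k b (A₀ ++ v :: C₀) := by
    by_cases h1 : lam (v :: B₀) * nu J lam k b (A₀ ++ u :: C₀) = 0
    · by_cases h2 : lam (u :: B₀) * nu J lam k b (A₀ ++ v :: C₀) = 0
      · rw [h1, h2]
      · have w1 := h.hlow _ (left_ne_zero_of_mul h2)
        have w2 := h.low k b _ v4 (right_ne_zero_of_mul h2)
        obtain ⟨r1, r2⟩ := key (by linarith) (by linarith [lB.1]) (by linarith [lR.2])
          (by linarith)
        rw [r1, r2]
    · have w1 := h.hlow _ (left_ne_zero_of_mul h1)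
      have w2 := h.low k b _ v2 (right_ne_zero_of_mul h1)
      obtain ⟨r1, r2⟩ := key (by linarith [lB.2]) (by linarith) (by linarith)
        (by linarith [lR.1])
      rw [r1, r2]
  rw [fin, sub_self, mul_zero]

theorem SwapData.main (h : SwapData J J' adj lam len ρ κ Lt u v c) :
    ∀ (k : ℕ) (b : S) (W : List S), (b :: W).Nodup → ValidC adj (b :: W) → b ≠ u → b ≠ v →
      len (b :: W) ≤ Lt → (k = 0 → len (b :: W) ≤ Lt - ρ) →
      nu J' lam k b W = nu J lam k b W := by
  intro k
  induction k with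
  | zero => intros; rfl
  | succ k ih =>
    intro b W hnd hval hbu hbv hlen _
    have hρ := h.hρ
    have hκ := h.hκ
    have step : nu J' lam (k + 1) b W = cuts W fun A B C =>
        (J' (A.getLastD b) (B.headD b) (B.getLastD b) (C.headD b) : R) * lam B *
        nu J lam k b (A ++ C) := by
      rw [nu_succ]
      apply cuts_congr
      rintro A B C hB rfl
      by_cases hJ0 : J' (A.getLastD b) (B.headD b) (B.getLastD b) (C.headD b) = 0
      · rw [hJ0]; simp
      by_cases hl0 : lam B = 0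
      · rw [hl0]; simp
      obtain ⟨c1, c2, c3⟩ := h.cut_info hB hval (Or.inr hJ0)
      have c4 := h.hlow _ hl0
      rw [ih b (A ++ C) (nodup_cut hB hnd).2.2.1 c2 hbu hbv (by linarith)
        (fun _ => by linarith)]
    rw [step, nu_succ, ← sub_eq_zero, ← cuts_sub]
    have e : (cuts W fun A B C =>
        (J' (A.getLastD b) (B.headD b) (B.getLastD b) (C.headD b) : R) * lam B *
          nu J lam k b (A ++ C) -
        (J (A.getLastD b) (B.headD b) (B.getLastD b) (C.headD b) : R) * lam B *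
          nu J lam k b (A ++ C)) = dsum lam J u v c k b W := by
      unfold dsum
      apply cuts_congr
      rintro A B C hB rfl
      rw [← h.diff hB hnd hval]
      push_cast
      ring
    rw [e]
    have hndW := (List.nodup_cons.1 hnd).2
    by_cases hu : u ∈ W
    · by_cases hv : v ∈ W
      · obtain ⟨X, Y, rfl⟩ := List.append_of_mem hu
        rw [List.mem_append, List.mem_cons] at hv
        rcases hv with hv | hv | hv
        · obtain ⟨X₁, X₂, rfl⟩ := List.append_of_mem hv
          have hW : (X₁ ++ v :: X₂) ++ u :: Y = X₁ ++ v :: (X₂ ++ u :: Y) := by simp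
          rw [hW] at hnd hval hlen ⊢
          rw [dsum_symm]
          exact h.symm.core k b X₁ X₂ Y hnd hval hlen
        · exact absurd hv h.huv.symm
        · obtain ⟨Y₁, Y₂, rfl⟩ := List.append_of_mem hv
          exact h.core k b X Y₁ Y₂ hnd hval hlen
      · rw [dsum_symm]
        exact dsum_of_notMem lam J v u (-c) k b W hbv hv
    · exact dsum_of_notMem lam J u v c k b W hbu hu

end swap

/-- Packet Q3: the swap lemma -/
theorem nu_swap {S R : Type*} [CommRing R] [DecidableEq S] (J J' : S → S → S → S → ℤ) (adj : S → S → Prop)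
    (lam : List S → R) (len : List S → ℝ) (ρ κ Lt : ℝ) (hρ : 0 ≤ ρ) (hκ : 0 ≤ κ)
    (hadj : ∀ a b c d, adj a b → adj c b → adj c d → adj a d)
    (hJ : ∀ a b c d, J a b c d ≠ 0 → adj a b ∧ adj c d ∧ adj a d ∧ adj c b)
    (hJ' : ∀ a b c d, J' a b c d ≠ 0 → adj a b ∧ adj c d ∧ adj a d ∧ adj c b)
    (hlow : ∀ B, lam B ≠ 0 → ρ + κ ≤ len B)
    (hcut : ∀ b A B C, B ≠ [] → ValidC adj (b :: (A ++ (B ++ C))) →
      (J (A.getLastD b) (B.headD b) (B.getLastD b) (C.headD b) ≠ 0 ∨
       J' (A.getLastD b) (B.headD b) (B.getLastD b) (C.headD b) ≠ 0) →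
      len B + len (b :: (A ++ C)) ≤ len (b :: (A ++ (B ++ C))))
    (hlamrot : ∀ A B, lam (A ++ B) = lam (B ++ A))
    (hlenrot : ∀ A B, len (A ++ B) = len (B ++ A))
    (u v : S) (huv : u ≠ v) (c : ℤ)
    (hpar1 : ∀ x, adj x u ↔ adj x v) (hpar2 : ∀ x, adj u x ↔ adj v x) (hpar3 : ¬ adj u u)
    (hs : ∀ x₁ y₁ x₂ y₂, x₁ ≠ x₂ → y₁ ≠ y₂ → adj x₁ y₁ → adj x₂ y₂ → adj x₁ y₂ → adj x₂ y₁ →
      J' x₁ y₁ x₂ y₂ = J x₁ y₁ x₂ y₂ + c * ((if x₁ = u ∧ x₂ = v then 1 else 0)
        - (if x₁ = v ∧ x₂ = u then 1 else 0) - (if y₁ = u ∧ y₂ = v then 1 else 0)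
        + (if y₁ = v ∧ y₂ = u then 1 else 0)))
    (hrep : ∀ x y z w, x ≠ v → y ≠ v → z ≠ v → w ≠ v →
      J (if x = u then v else x) (if y = u then v else y) (if z = u then v else z)
        (if w = u then v else w) = J x y z w)
    (hlen : ∀ B, (u :: B).Nodup → v ∉ B → ValidC adj (u :: B) →
      len (v :: B) ≤ len (u :: B) + κ ∧ len (u :: B) ≤ len (v :: B) + κ)
    (hlam : ∀ B, (u :: B).Nodup → v ∉ B → ValidC adj (u :: B) →
      len (u :: B) ≤ Lt - ρ → len (v :: B) ≤ Lt - ρ → lam (v :: B) = lam (u :: B)) :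
    ∀ (k : ℕ) (b : S) (W : List S), (b :: W).Nodup → ValidC adj (b :: W) → b ≠ u → b ≠ v →
      len (b :: W) ≤ Lt → (k = 0 → len (b :: W) ≤ Lt - ρ) →
      nu J' lam k b W = nu J lam k b W :=
  SwapData.main { hρ := hρ, hκ := hκ, hJ := hJ, hJ' := hJ', hlow := hlow, hcut := hcut,
                  hlamrot := hlamrot, hlenrot := hlenrot, huv := huv, hpar1 := hpar1,
                  hpar2 := hpar2, hpar3 := hpar3, hs := hs, hrep := hrep, hlen := hlen,
                  hlam := hlam }

end Pool.Agent.Helper84.Cut
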